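import Mathlib
import Pool.Agent.H27.DTC

open Pool.Agent.H27.DTC

theorem Pool.Agent.Results.MP_1a7a11_al.DTCOne.result :
    ∃ (G : Type) (_ : Group G), Countable G ∧ Infinite G ∧ (∀ g : G, {h | IsConj g h}.Finite) ∧
      ∃ v : Ultrafilter G, ∀ u : Ultrafilter G, (∀ x, u ≠ pure x) → box u v ≠ diamond u v :=
  ⟨G, inferInstance, inferInstance, inferInstance, fc, v, main⟩
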